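import Pool.Agent.X179.ID.Main

namespace Pool.Agent.Results.MP_b29958_an.Ideal

open Pool.Agent.X179.SP Pool.Agent.X179.ID

set_option synthInstance.maxHeartbeats 400000
set_option maxHeartbeats 4000000

/-- A subalgebra with the norm of `A` is a normed space. -/
noncomputable instance subNormedSpace {A : Type} [NonUnitalNormedRing A] [NormedSpace ℂ A]
    (J : NonUnitalSubalgebra ℂ A) : NormedSpace ℂ J where
  norm_smul_le c s := norm_smul_le c (s : A)

/-- The data of a complemented ideal. -/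
noncomputable def mkCpl {A : Type} [NonUnitalNormedRing A] [NormedSpace ℂ A]
    [IsScalarTower ℂ A A] [SMulCommClass ℂ A A]
    (J : NonUnitalSubalgebra ℂ A) (hl : ∀ a : A, ∀ s ∈ J, a * s ∈ J)
    (hr : ∀ a : A, ∀ s ∈ J, s * a ∈ J) (P : A →L[ℂ] A) (hPJ : ∀ a, P a ∈ J)
    (hP : ∀ s ∈ J, P s = s) : Cpl A J where
  i := LinearMap.mkContinuous
    { toFun := fun s => (s : A), map_add' := fun _ _ => rfl, map_smul' := fun _ _ => rfl } 1
    (fun s => by rw [one_mul]; exact le_refl _)
  im _ _ := rfl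
  μ := LinearMap.mkContinuous₂ (LinearMap.mk₂ ℂ (fun (a : A) (s : J) => (⟨a * s, hl a s s.2⟩ : J))
    (fun a b s => Subtype.ext (add_mul a b (s : A)))
    (fun c a s => Subtype.ext (smul_mul_assoc c a (s : A)))
    (fun a s t => Subtype.ext (mul_add a (s : A) (t : A)))
    (fun c a s => Subtype.ext (mul_smul_comm c a (s : A)))) 1
    (fun a s => by rw [one_mul]; exact norm_mul_le a (s : A))
  hμ _ _ := rfl
  ν := LinearMap.mkContinuous₂ (LinearMap.mk₂ ℂ (fun (a : A) (s : J) => (⟨s * a, hr a s s.2⟩ : J))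
    (fun a b s => Subtype.ext (mul_add (s : A) a b))
    (fun c a s => Subtype.ext (mul_smul_comm c (s : A) a))
    (fun a s t => Subtype.ext (add_mul (s : A) (t : A) a))
    (fun c a s => Subtype.ext (smul_mul_assoc c (s : A) a))) 1
    (fun a s => by rw [one_mul, mul_comm]; exact norm_mul_le (s : A) a)
  hν _ _ := rfl
  P := LinearMap.mkContinuous
    { toFun := fun a => (⟨P a, hPJ a⟩ : J)
      map_add' := fun a b => Subtype.ext (map_add P a b)
      map_smul' := fun c a => Subtype.ext (map_smul P c a) } ‖P‖ (fun a => P.le_opNorm a)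
  hP s := Subtype.ext (hP s s.2)

/-- Complemented two-sided ideals of approximately semi-amenable Banach algebras are approximately
semi-amenable. -/
theorem result (A : Type) [NonUnitalNormedRing A] [NormedSpace ℂ A] [IsScalarTower ℂ A A]
    [SMulCommClass ℂ A A] (hA : ApproxSemiAmenable A)
    (J : NonUnitalSubalgebra ℂ A) (hl : ∀ a : A, ∀ s ∈ J, a * s ∈ J)
    (hr : ∀ a : A, ∀ s ∈ J, s * a ∈ J) (P : A →L[ℂ] A) (hPJ : ∀ a, P a ∈ J)
    (hP : ∀ s ∈ J, P s = s) : ApproxSemiAmenable J :=
  cpl_main hA (mkCpl J hl hr P hPJ hP)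

end Pool.Agent.Results.MP_b29958_an.Ideal
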